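import Mathlib
import Pool.Agent.W743.GV.Stm

open Set
open scoped ContDiff

namespace Pool.Agent.W230.GV

open Pool.Agent.W743.GV

noncomputable section

/-- the helix -/
def xi (t : ℝ) : E3 :=
  Real.cos t • (EuclideanSpace.single 0 1 : E3) + Real.sin t • (EuclideanSpace.single 1 1 : E3)
    + t • (EuclideanSpace.single 2 1 : E3)

/-- its derivative -/
def dxi (t : ℝ) : E3 :=
  (-Real.sin t) • (EuclideanSpace.single 0 1 : E3) + Real.cos t • (EuclideanSpace.single 1 1 : E3)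
    + (1 : ℝ) • (EuclideanSpace.single 2 1 : E3)

lemma xi0 (t : ℝ) : xi t 0 = Real.cos t := by simp [xi]
lemma xi1 (t : ℝ) : xi t 1 = Real.sin t := by simp [xi]
lemma xi2 (t : ℝ) : xi t 2 = t := by simp [xi]
lemma dxi0 (t : ℝ) : dxi t 0 = -Real.sin t := by simp [dxi]
lemma dxi1 (t : ℝ) : dxi t 1 = Real.cos t := by simp [dxi]
lemma dxi2 (t : ℝ) : dxi t 2 = 1 := by simp [dxi]

lemma xi_zero : xi 0 = (!₂[1, 0, 0] : E3) := by
  ext i
  fin_cases i
  · simpa using xi0 0
  · simpa using xi1 0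
  · simpa using xi2 0

lemma xi_deriv (t : ℝ) : HasDerivAt xi (dxi t) t := by
  unfold xi dxi
  exact (((Real.hasDerivAt_cos t).smul_const _).add ((Real.hasDerivAt_sin t).smul_const _)).add
    ((hasDerivAt_id t).smul_const _)

lemma lf_apply (a b c : ℝ) (v : E3) : lf a b c v = a * v 0 + b * v 1 + c * v 2 := by
  simp [lf]

lemma ss_xi (t : ℝ) : ss (xi t) = 1 := by
  unfold ss
  rw [xi0, xi1]
  exact Real.cos_sq_add_sin_sq t

lemma Lp_dxi (b f : ℝ → ℝ) (t P : ℝ) : Lp b f (xi t) P (dxi t) = 0 := by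
  unfold Lp
  rw [lf_apply, ss_xi, xi0, xi1, dxi0, dxi1, dxi2]
  have h := Real.sin_sq_add_cos_sq t
  linear_combination (-2 * √(MM b f 1 P)) * h

lemma crs0 (n v : E3) : crs n v 0 = n 1 * v 2 - n 2 * v 1 := by simp [crs]
lemma crs1 (n v : E3) : crs n v 1 = n 2 * v 0 - n 0 * v 2 := by simp [crs]
lemma crs2 (n v : E3) : crs n v 2 = n 0 * v 1 - n 1 * v 0 := by simp [crs]

/-- elementary consequence of the vanishing of the trigonometric polynomial -/
lemma trig (A B C n0 n1 ε : ℝ) (hε : 0 < ε)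
    (h : ∀ t : ℝ, |t| < ε → A + B * Real.sin t + C * Real.cos t + n1 * t * Real.sin t
      + n0 * t * Real.cos t = 0) : n0 = 0 ∧ n1 = 0 ∧ A = 0 := by
  obtain ⟨t, ht0, ht1, ht2⟩ : ∃ t : ℝ, 0 < t ∧ t < 1 ∧ 2 * t < ε := by
    refine ⟨min 1 ε / 4, ?_, ?_, ?_⟩
    · have : 0 < min 1 ε := lt_min one_pos hε
      linarith
    · have : min 1 ε ≤ 1 := min_le_left _ _
      linarith
    · have : min 1 ε ≤ ε := min_le_right _ _
      linarith
  have hs : 0 < Real.sin t := Real.sin_pos_of_pos_of_lt_pi ht0 (by linarith [Real.pi_gt_three])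
  have hsc := Real.sin_sq_add_cos_sq t
  have hc1 : Real.cos t < 1 := by nlinarith [Real.cos_le_one t]
  have a0 := h 0 (by simpa using hε)
  have a1 := h t (by rw [abs_of_pos ht0]; linarith)
  have a2 := h (-t) (by rw [abs_neg, abs_of_pos ht0]; linarith)
  have a3 := h (2 * t) (by rw [abs_of_pos (by linarith)]; linarith)
  have a4 := h (-(2 * t)) (by rw [abs_neg, abs_of_pos (by linarith)]; linarith)
  rw [Real.sin_neg, Real.cos_neg] at a2 a4
  rw [Real.sin_zero, Real.cos_zero] at a0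
  rw [Real.sin_two_mul, Real.cos_two_mul] at a3 a4
  obtain ⟨s, hsd⟩ : ∃ s, s = Real.sin t := ⟨_, rfl⟩
  obtain ⟨c, hcd⟩ : ∃ c, c = Real.cos t := ⟨_, rfl⟩
  rw [← hsd] at hs
  rw [← hcd] at hc1
  rw [← hsd, ← hcd] at hsc a1 a2 a3 a4
  -- odd parts
  have o1 : B * s + n0 * t * c = 0 := by linarith
  have o2 : B * (2 * s * c) + n0 * (2 * t) * (2 * c ^ 2 - 1) = 0 := by linarith
  have e1 : A + C * c + n1 * t * s = 0 := by linarith
  have e2 : A + C * (2 * c ^ 2 - 1) + n1 * (2 * t) * (2 * s * c) = 0 := by linarith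
  have e0 : A + C = 0 := by linarith
  have hn0 : n0 = 0 := by
    have h1 : n0 * (t * s ^ 2) = 0 := by
      linear_combination (c) * o1 - (1 / 2) * o2 + (n0 * t) * hsc
    rcases mul_eq_zero.1 h1 with h2 | h2
    · exact h2
    · exfalso
      have : 0 < t * s ^ 2 := by positivity
      linarith
  have hn1 : n1 = 0 := by
    have h1 : n1 * (t * s * (1 - c)) = 0 := by
      linear_combination (1 + c) * e1 - (1 / 2) * e2 - (1 / 2 + c) * e0
    rcases mul_eq_zero.1 h1 with h2 | h2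
    · exact h2
    · exfalso
      have : 0 < t * s * (1 - c) := mul_pos (mul_pos ht0 hs) (by linarith)
      linarith
  refine ⟨hn0, hn1, ?_⟩
  rw [hn1] at e1
  have h3 : C * (1 - c) = 0 := by linarith
  rcases mul_eq_zero.1 h3 with h4 | h4
  · linarith
  · linarith

theorem t_HEL : S_HEL := by
  intro d b f U p hD hS c n hc
  have hxc : Continuous xi := continuous_iff_continuousAt.2 (fun t => (xi_deriv t).continuousAt)
  have h0U : xi 0 ∈ U := by rw [xi_zero]; exact hS.pt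
  obtain ⟨ε, hε, hball⟩ := Metric.isOpen_iff.1 (hS.op.preimage hxc) 0 h0U
  have hU : ∀ t : ℝ, |t| < ε → xi t ∈ U := by
    intro t ht
    apply hball
    rw [Metric.mem_ball, Real.dist_eq, sub_zero]
    exact ht
  have hder : ∀ t : ℝ, |t| < ε → HasDerivAt (fun t => p (xi t)) 0 t := by
    intro t ht
    have h1 := (hS.dp (xi t) (hU t ht)).comp_hasDerivAt t (xi_deriv t)
    rw [Lp_dxi] at h1
    exact h1
  have hconst : ∀ t : ℝ, |t| < ε → p (xi t) = 1 := by
    intro t ht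
    have hop : IsOpen (Metric.ball (0 : ℝ) ε) := Metric.isOpen_ball
    have hpre : IsPreconnected (Metric.ball (0 : ℝ) ε) := (convex_ball (0 : ℝ) ε).isPreconnected
    have hmem : ∀ s : ℝ, s ∈ Metric.ball (0 : ℝ) ε ↔ |s| < ε := by
      intro s
      rw [Metric.mem_ball, Real.dist_eq, sub_zero]
    have h1 := hop.is_const_of_deriv_eq_zero (f := fun t => p (xi t)) hpre
      (fun s hs => ((hder s ((hmem s).1 hs)).differentiableAt).differentiableWithinAt)
      (fun s hs => (hder s ((hmem s).1 hs)).deriv)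
      ((hmem t).2 ht) ((hmem 0).2 (by simpa using hε))
    have h2 : p (xi t) = p (xi 0) := h1
    rw [h2, xi_zero]
    exact hS.p1
  have hM : MM b f 1 1 = 3 := by
    unfold MM
    rw [hD.b1, hD.f1]
    norm_num
  have hQ : QQ b f 1 1 = 0 := by
    unfold QQ
    rw [hD.b1, hD.f1]
    norm_num
  have hr : 0 < √3 := Real.sqrt_pos.2 (by norm_num)
  have hE : ∀ t : ℝ, |t| < ε → (-n 2 - n 0 * c 1 + n 1 * c 0)
      + (n 0 + n 2 * c 1 - n 1 * c 2) * Real.sin t
      + (-n 1 + n 2 * c 0 - n 0 * c 2) * Real.cos t + n 1 * t * Real.sin t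
      + n 0 * t * Real.cos t = 0 := by
    intro t ht
    have h1 := hc (xi t) (hU t ht)
    rw [(hS.dp (xi t) (hU t ht)).fderiv, hconst t ht] at h1
    unfold Lp at h1
    rw [lf_apply, ss_xi, hM, hQ, crs0, crs1, crs2, xi0, xi1, PiLp.sub_apply, PiLp.sub_apply,
      PiLp.sub_apply, xi0, xi1, xi2] at h1
    have hsc := Real.sin_sq_add_cos_sq t
    have h2 : 2 * √3 * ((-n 2 - n 0 * c 1 + n 1 * c 0)
      + (n 0 + n 2 * c 1 - n 1 * c 2) * Real.sin t
      + (-n 1 + n 2 * c 0 - n 0 * c 2) * Real.cos t + n 1 * t * Real.sin t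
      + n 0 * t * Real.cos t) = 0 := by
      linear_combination h1 + (2 * √3 * n 2) * hsc
    rcases mul_eq_zero.1 h2 with h3 | h3
    · exfalso
      linarith
    · exact h3
  obtain ⟨h0, h1, h2⟩ := trig _ _ _ _ _ ε hε hE
  rw [h0, h1] at h2
  have h3 : n 2 = 0 := by linarith
  ext i
  fin_cases i
  · exact h0
  · exact h1
  · exact h3

end

end Pool.Agent.W230.GV
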